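import Pool.Agent.U14.UF.Jobs

/-!
# Project UF (helper14), package E (helper141)

From `X² + Y² + Z² = 4 α` to `P² + Q² + S² = 2 α` in `R4 = ℤ[√2, (1 + √5)/2]`.
-/

set_option autoImplicit false

namespace Pool.Agent.U141.UF

open Pool.Agent.U14.UF Pool.Agent.U14.UF.R4

/-- first coordinate of the residue modulo `√2` -/
def f1 (x : R4) : ZMod 2 := ((x.a + x.c : ℤ) : ZMod 2)
/-- second coordinate of the residue modulo `√2` -/
def f2 (x : R4) : ZMod 2 := ((x.b + x.d : ℤ) : ZMod 2)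

lemma two_eq : (2 : ZMod 2) = 0 := by decide

lemma f1_add (x y : R4) : f1 (x + y) = f1 x + f1 y := by
  simp only [f1, add_a, add_c]; push_cast; ring
lemma f2_add (x y : R4) : f2 (x + y) = f2 x + f2 y := by
  simp only [f2, add_b, add_d]; push_cast; ring
lemma f1_mul (x y : R4) : f1 (x * y) = f1 x * f1 y + f2 x * f2 y := by
  simp only [f1, f2, mul_a, mul_c]; push_cast
  linear_combination ((x.c : ZMod 2) * y.c + x.d * y.d) * two_eq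
lemma f2_mul (x y : R4) : f2 (x * y) = f1 x * f2 y + f2 x * f1 y + f2 x * f2 y := by
  simp only [f1, f2, mul_b, mul_d]; push_cast
  linear_combination ((x.c : ZMod 2) * y.d + x.d * y.c + x.d * y.d) * two_eq
lemma f1_neg (x : R4) : f1 (-x) = f1 x := by
  have h : f1 (-x) = - f1 x := by simp only [f1, neg_a, neg_c]; push_cast; ring
  rw [h]; generalize f1 x = u; revert u; decide
lemma f2_neg (x : R4) : f2 (-x) = f2 x := by
  have h : f2 (-x) = - f2 x := by simp only [f2, neg_b, neg_d]; push_cast; ring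
  rw [h]; generalize f2 x = u; revert u; decide
lemma f1_sub (x y : R4) : f1 (x - y) = f1 x + f1 y := by rw [sub_eq_add_neg, f1_add, f1_neg]
lemma f2_sub (x y : R4) : f2 (x - y) = f2 x + f2 y := by rw [sub_eq_add_neg, f2_add, f2_neg]

lemma f1_s2 : f1 s2 = 0 := by simp [f1, s2]
lemma f2_s2 : f2 s2 = 0 := by simp [f2, s2]
lemma f1_zero : f1 0 = 0 := by simp [f1]
lemma f2_zero : f2 0 = 0 := by simp [f2]
lemma f1_tau : f1 tau = 0 := by simp [f1, tau]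
lemma f2_tau : f2 tau = 1 := by simp [f2, tau]
lemma f1_one : f1 1 = 1 := by simp [f1]
lemma f2_one : f2 1 = 0 := by simp [f2]
lemma two_mk : (2 : R4) = ⟨2, 0, 0, 0⟩ := by exact_mod_cast natCast_eq 2
lemma f2_two : f2 2 = 0 := by rw [two_mk]; simp [f2]
lemma f1_two : f1 2 = 0 := by rw [two_mk]; simp [f1]; decide

lemma s2s2 : s2 * s2 = 2 := by rw [two_mk]; ext <;> simp [s2]
lemma tt : tau * tau = tau + 1 := by ext <;> simp [tau]

lemma s2_mul (y : R4) : s2 * y = ⟨y.c - y.a, y.d - y.b, y.a + y.c, y.b + y.d⟩ := by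
  ext <;> simp [s2] <;> ring

lemma cancel {x y : R4} (h : s2 * x = s2 * y) : x = y := by
  rw [s2_mul, s2_mul, R4.mk.injEq] at h
  obtain ⟨h1, h2, h3, h4⟩ := h
  ext <;> omega

lemma dvd_of {x : R4} (h1 : f1 x = 0) (h2 : f2 x = 0) : ∃ y, x = s2 * y := by
  unfold f1 at h1
  unfold f2 at h2
  rw [ZMod.intCast_zmod_eq_zero_iff_dvd] at h1 h2
  obtain ⟨r, hr⟩ := h1
  obtain ⟨s, hs⟩ := h2
  refine ⟨⟨x.c - r, x.d - s, r, s⟩, ?_⟩
  rw [s2_mul]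
  push_cast at hr hs
  ext <;> simp only [] <;> omega

lemma f1_s2mul (y : R4) : f1 (s2 * y) = 0 := by rw [f1_mul, f1_s2, f2_s2]; ring
lemma f2_s2mul (y : R4) : f2 (s2 * y) = 0 := by rw [f2_mul, f1_s2, f2_s2]; ring

/-- case R -/
lemma caseR (α X Y Z : R4) (h : X ^ 2 + Y ^ 2 + Z ^ 2 = 4 * α) (hZ1 : f1 Z = 0) (hZ2 : f2 Z = 0)
    (h1 : f1 X = f1 Y) (h2 : f2 X = f2 Y) (hY : ¬ (f1 Y = 0 ∧ f2 Y = 0)) :
    ∃ P Q S : R4, P ^ 2 + Q ^ 2 + S ^ 2 = 2 * α := by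
  obtain ⟨Z', rfl⟩ := dvd_of hZ1 hZ2
  obtain ⟨s, hs⟩ : ∃ s, X + Y = s2 * s := dvd_of (by
    rw [f1_add, h1]; generalize f1 Y = u; revert u; decide) (by
    rw [f2_add, h2]; generalize f2 Y = u; revert u; decide)
  have hX : X = s2 * s - Y := by rw [← hs]; ring
  subst hX
  have e1 : s ^ 2 - s2 * s * Y + Y ^ 2 + Z' ^ 2 = 2 * α := by
    refine cancel (cancel ?_)
    have h3 : s2 * (s2 * (s ^ 2 - s2 * s * Y + Y ^ 2 + Z' ^ 2)) =
        (s2 * s - Y) ^ 2 + Y ^ 2 + (s2 * Z') ^ 2 + (s2 * s2 - 2) * (Y ^ 2 - s2 * s * Y) := by ring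
    have h4 : s2 * (s2 * (2 * α)) = (s2 * s2) * (2 * α) := by ring
    rw [h3, h4, s2s2, h]; ring
  obtain ⟨m, hm⟩ : ∃ m, s + Y + Z' = s2 * m := by
    have g1 := congrArg f1 e1
    have g2 := congrArg f2 e1
    have hsY : s2 * s * Y = s2 * (s * Y) := by ring
    rw [hsY] at g1 g2
    simp only [f1_add, f2_add, f1_sub, f2_sub, pow_two, f1_mul, f2_mul, f1_s2, f2_s2, f1_two,
      f2_two, zero_mul, mul_zero, add_zero] at g1 g2
    refine dvd_of ?_ ?_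
    · rw [f1_add, f1_add]
      revert g1 g2
      generalize f1 s = a1; generalize f2 s = a2; generalize f1 Y = b1; generalize f2 Y = b2
      generalize f1 Z' = c1; generalize f2 Z' = c2
      revert a1 a2 b1 b2 c1 c2
      decide
    · rw [f2_add, f2_add]
      revert g1 g2
      generalize f1 s = a1; generalize f2 s = a2; generalize f1 Y = b1; generalize f2 Y = b2
      generalize f1 Z' = c1; generalize f2 Z' = c2
      revert a1 a2 b1 b2 c1 c2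
      decide
  have e2 : s * Y = s2 * (m ^ 2 - (s * Y + s * Z' + Y * Z') - α) := by
    refine cancel ?_
    have h5 : (s + Y + Z') ^ 2 = s2 * s2 * m ^ 2 := by rw [hm]; ring
    linear_combination (-1 : R4) * e1 + h5 + (s * Y + s * Z' + Y * Z' + α) * s2s2
  have hs0 : f1 s = 0 ∧ f2 s = 0 := by
    have g1 := congrArg f1 e2
    have g2 := congrArg f2 e2
    rw [f1_s2mul] at g1
    rw [f2_s2mul] at g2
    rw [f1_mul] at g1
    rw [f2_mul] at g2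
    revert g1 g2 hY
    generalize f1 s = a1; generalize f2 s = a2; generalize f1 Y = b1; generalize f2 Y = b2
    revert a1 a2 b1 b2
    decide
  obtain ⟨s', rfl⟩ := dvd_of hs0.1 hs0.2
  refine ⟨s', s' - Y, Z', ?_⟩
  linear_combination e1 + (s' * Y - s' ^ 2) * s2s2

/-- case F -/
lemma caseF (α X Y Z : R4) (h : X ^ 2 + Y ^ 2 + Z ^ 2 = 4 * α) (hX : ¬ (f1 X = 0 ∧ f2 X = 0))
    (hY1 : f1 Y = f1 (tau * X)) (hY2 : f2 Y = f2 (tau * X))
    (hZ1 : f1 Z = f1 (tau * tau * X)) (hZ2 : f2 Z = f2 (tau * tau * X)) :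
    ∃ P Q S : R4, P ^ 2 + Q ^ 2 + S ^ 2 = 2 * α := by
  obtain ⟨y1, hy1⟩ : ∃ y, Y - tau * X = s2 * y := dvd_of (by
    rw [f1_sub, hY1]; generalize f1 (tau * X) = u; revert u; decide) (by
    rw [f2_sub, hY2]; generalize f2 (tau * X) = u; revert u; decide)
  obtain ⟨z1, hz1⟩ : ∃ y, Z - tau * tau * X = s2 * y := dvd_of (by
    rw [f1_sub, hZ1]; generalize f1 (tau * tau * X) = u; revert u; decide) (by
    rw [f2_sub, hZ2]; generalize f2 (tau * tau * X) = u; revert u; decide)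
  have hYe : Y = tau * X + s2 * y1 := by rw [← hy1]; ring
  have hZe : Z = tau * tau * X + s2 * z1 := by rw [← hz1]; ring
  clear hy1 hz1 hY1 hY2 hZ1 hZ2
  subst hYe hZe
  have e1 : s2 * (X * (tau * y1 + tau * tau * z1)) + (y1 * y1 + z1 * z1)
      + s2 * (s2 * (tau * tau * X ^ 2 - α)) = 0 := by
    refine cancel (cancel ?_)
    linear_combination h + (s2 * X * (tau * y1 + tau * tau * z1) +
      (s2 * s2 + 2) * (tau * tau * X ^ 2 - α)) * s2s2 - X ^ 2 * (tau * tau + tau - 1) * tt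
  obtain ⟨m, hm⟩ : ∃ m, y1 + z1 = s2 * m := by
    have g1 := congrArg f1 e1
    have g2 := congrArg f2 e1
    rw [f1_add, f1_add, f1_s2mul, f1_s2mul, f1_add, f1_mul, f1_mul, f1_zero] at g1
    rw [f2_add, f2_add, f2_s2mul, f2_s2mul, f2_add, f2_mul, f2_mul, f2_zero] at g2
    refine dvd_of ?_ ?_
    · rw [f1_add]
      revert g1 g2
      generalize f1 y1 = a1; generalize f2 y1 = a2; generalize f1 z1 = b1; generalize f2 z1 = b2
      revert a1 a2 b1 b2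
      decide
    · rw [f2_add]
      revert g1 g2
      generalize f1 y1 = a1; generalize f2 y1 = a2; generalize f1 z1 = b1; generalize f2 z1 = b2
      revert a1 a2 b1 b2
      decide
  have e2 : X * (tau * y1 + tau * tau * z1) =
      s2 * (-m ^ 2 + y1 * z1 - (tau * tau * X ^ 2 - α)) := by
    refine cancel ?_
    have h5 : (y1 + z1) ^ 2 = s2 * s2 * m ^ 2 := by rw [hm]; ring
    linear_combination e1 - h5 - y1 * z1 * s2s2
  have hz : (f1 y1 = 0 ∧ f2 y1 = 0) ∧ (f1 z1 = 0 ∧ f2 z1 = 0) := by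
    have g1 := congrArg f1 e2
    have g2 := congrArg f2 e2
    have g3 := congrArg f1 hm
    have g4 := congrArg f2 hm
    rw [f1_s2mul] at g1 g3
    rw [f2_s2mul] at g2 g4
    simp only [f1_add, f2_add, f1_mul, f2_mul, f1_tau, f2_tau] at g1 g2 g3 g4
    revert g1 g2 g3 g4 hX
    generalize f1 y1 = a1; generalize f2 y1 = a2; generalize f1 z1 = b1; generalize f2 z1 = b2
    generalize f1 X = c1; generalize f2 X = c2
    revert a1 a2 b1 b2 c1 c2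
    decide
  obtain ⟨y2, rfl⟩ := dvd_of hz.1.1 hz.1.2
  obtain ⟨z2, rfl⟩ := dvd_of hz.2.1 hz.2.2
  have e3 : α = tau * tau * X ^ 2 + tau * X * y2 + tau * tau * X * z2 + y2 ^ 2 + z2 ^ 2 := by
    refine cancel (cancel ?_)
    linear_combination (-1 : R4) * e1
  clear e1 e2 hm h
  subst e3
  have fin : ∀ A B ρ w : R4, ρ = s2 * w → ρ ^ 2 + (tau * ρ - 2 * A) ^ 2 +
      ((tau - 1) * ρ - 2 * B) ^ 2 =
      4 * (tau * tau * X ^ 2 + tau * X * y2 + tau * tau * X * z2 + y2 ^ 2 + z2 ^ 2) →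
      ∃ P Q S : R4, P ^ 2 + Q ^ 2 + S ^ 2 =
        2 * (tau * tau * X ^ 2 + tau * X * y2 + tau * tau * X * z2 + y2 ^ 2 + z2 ^ 2) := by
    intro A B ρ w hρ h
    subst hρ
    refine ⟨w, tau * w - s2 * A, (tau - 1) * w - s2 * B, cancel (cancel ?_)⟩
    linear_combination h + (-A * (2 * tau * s2 * w - (s2 * s2 + 2) * A)
      - B * (2 * (tau - 1) * s2 * w - (s2 * s2 + 2) * B)
      - 2 * (tau * tau * X ^ 2 + tau * X * y2 + tau * tau * X * z2 + y2 ^ 2 + z2 ^ 2)) * s2s2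
  -- the four choices of the signs
  have key : (∃ w, -tau * y2 + (tau - 1) * z2 = s2 * w) ∨
      (∃ w, X + tau * y2 - (tau - 1) * z2 = s2 * w) ∨
      (∃ w, -tau * X - tau * y2 - (tau - 1) * z2 = s2 * w) ∨
      (∃ w, (tau + 1) * X + tau * y2 + (tau - 1) * z2 = s2 * w) := by
    have hd : ∀ x : R4, (∃ w, x = s2 * w) ↔ (f1 x = 0 ∧ f2 x = 0) := fun x =>
      ⟨by rintro ⟨w, rfl⟩; exact ⟨f1_s2mul w, f2_s2mul w⟩, fun h => dvd_of h.1 h.2⟩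
    simp only [hd, f1_add, f2_add, f1_sub, f2_sub, f1_mul, f2_mul, f1_neg, f2_neg, f1_tau, f2_tau,
      f1_one, f2_one]
    revert hX
    generalize f1 y2 = a1; generalize f2 y2 = a2; generalize f1 z2 = b1; generalize f2 z2 = b2
    generalize f1 X = c1; generalize f2 X = c2
    revert a1 a2 b1 b2 c1 c2
    decide
  rcases key with ⟨w, hw⟩ | ⟨w, hw⟩ | ⟨w, hw⟩ | ⟨w, hw⟩
  · refine fin (-tau * y2 + z2) (-tau * X - y2 - (tau - 1) * z2) _ w hw ?_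
    linear_combination ((-4) * X * y2 * tau + 4 * X * z2 * tau + 2 * y2 ^ 2 * tau ^ 2
      + (-4) * y2 ^ 2 * tau + (-4) * y2 * z2 * tau ^ 2 + 4 * y2 * z2 * tau + 4 * y2 * z2
      + 2 * z2 ^ 2 * tau ^ 2 + (-2) * z2 ^ 2) * tt
  · refine fin (tau * y2 - z2) (tau * X + y2 + (tau - 1) * z2) _ w hw ?_
    linear_combination ((-2) * X ^ 2 + (-4) * X * y2 + 2 * y2 ^ 2 * tau ^ 2 + (-4) * y2 ^ 2 * tau
      + (-4) * y2 * z2 * tau ^ 2 + 4 * y2 * z2 * tau + 4 * y2 * z2 + 2 * z2 ^ 2 * tau ^ 2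
      + (-2) * z2 ^ 2) * tt
  · refine fin (-(tau * tau) * X - tau * y2 - z2) (-y2 + (tau - 1) * z2) _ w hw ?_
    linear_combination (2 * X ^ 2 * tau ^ 2 + 2 * y2 ^ 2 * tau ^ 2 + (-4) * y2 ^ 2 * tau
      + 4 * y2 * z2 * tau ^ 2 + (-4) * y2 * z2 * tau + (-4) * y2 * z2 + 2 * z2 ^ 2 * tau ^ 2
      + (-2) * z2 ^ 2) * tt
  · refine fin (tau * tau * X + tau * y2 + z2) (y2 - (tau - 1) * z2) _ w hw ?_
    linear_combination (2 * X ^ 2 * tau ^ 2 + (-2) * X ^ 2 + 4 * X * y2 * tau + (-4) * X * y2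
      + 4 * X * z2 * tau + 2 * y2 ^ 2 * tau ^ 2 + (-4) * y2 ^ 2 * tau + 4 * y2 * z2 * tau ^ 2
      + (-4) * y2 * z2 * tau + (-4) * y2 * z2 + 2 * z2 ^ 2 * tau ^ 2 + (-2) * z2 ^ 2) * tt

set_option synthInstance.maxSize 1000000 in
set_option maxRecDepth 100000 in
private theorem casesL : ∀ (a1 a2 b1 b2 c1 c2 : ZMod 2),
      a1 * a1 + a2 * a2 + (b1 * b1 + b2 * b2) + (c1 * c1 + c2 * c2) = 0 →
        a1 * a2 + a2 * a1 + a2 * a2 + (b1 * b2 + b2 * b1 + b2 * b2) + (c1 * c2 + c2 * c1 + c2 * c2) = 0 →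
          a1 = 0 ∧ a2 = 0 ∧ b1 = 0 ∧ b2 = 0 ∧ c1 = 0 ∧ c2 = 0 ∨
            c1 = 0 ∧ c2 = 0 ∧ a1 = b1 ∧ a2 = b2 ∧ ¬(b1 = 0 ∧ b2 = 0) ∨
              b1 = 0 ∧ b2 = 0 ∧ a1 = c1 ∧ a2 = c2 ∧ ¬(c1 = 0 ∧ c2 = 0) ∨
                a1 = 0 ∧ a2 = 0 ∧ b1 = c1 ∧ b2 = c2 ∧ ¬(c1 = 0 ∧ c2 = 0) ∨
                  ¬(a1 = 0 ∧ a2 = 0) ∧ b1 = a2 ∧ b2 = a1 + a2 ∧ c1 = a1 + a2 ∧ c2 = a1 ∨
                    ¬(a1 = 0 ∧ a2 = 0) ∧ c1 = a2 ∧ c2 = a1 + a2 ∧ b1 = a1 + a2 ∧ b2 = a1 := by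
  decide

theorem t_E : S_E := by
  intro α X Y Z h
  -- the residues
  have g1 := congrArg f1 h
  have g2 := congrArg f2 h
  have h4 : (4 : R4) * α = s2 * (s2 * (2 * α)) := by
    linear_combination (-(2 : R4) * α) * s2s2
  rw [h4, f1_s2mul, f1_add, f1_add, pow_two, pow_two, pow_two, f1_mul, f1_mul, f1_mul] at g1
  rw [h4, f2_s2mul, f2_add, f2_add, pow_two, pow_two, pow_two, f2_mul, f2_mul, f2_mul] at g2
  have cases' : (f1 X = 0 ∧ f2 X = 0 ∧ f1 Y = 0 ∧ f2 Y = 0 ∧ f1 Z = 0 ∧ f2 Z = 0) ∨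
      (f1 Z = 0 ∧ f2 Z = 0 ∧ f1 X = f1 Y ∧ f2 X = f2 Y ∧ ¬ (f1 Y = 0 ∧ f2 Y = 0)) ∨
      (f1 Y = 0 ∧ f2 Y = 0 ∧ f1 X = f1 Z ∧ f2 X = f2 Z ∧ ¬ (f1 Z = 0 ∧ f2 Z = 0)) ∨
      (f1 X = 0 ∧ f2 X = 0 ∧ f1 Y = f1 Z ∧ f2 Y = f2 Z ∧ ¬ (f1 Z = 0 ∧ f2 Z = 0)) ∨
      (¬ (f1 X = 0 ∧ f2 X = 0) ∧ f1 Y = f1 (tau * X) ∧ f2 Y = f2 (tau * X) ∧
        f1 Z = f1 (tau * tau * X) ∧ f2 Z = f2 (tau * tau * X)) ∨
      (¬ (f1 X = 0 ∧ f2 X = 0) ∧ f1 Z = f1 (tau * X) ∧ f2 Z = f2 (tau * X) ∧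
        f1 Y = f1 (tau * tau * X) ∧ f2 Y = f2 (tau * tau * X)) := by
    have e1 : ∀ u v : ZMod 2, (0 : ZMod 2) * u + 1 * v = v := by decide
    have e2 : ∀ u v : ZMod 2, (0 : ZMod 2) * v + 1 * u + 1 * v = u + v := by decide
    have e3 : ∀ u v : ZMod 2, ((0 : ZMod 2) * 0 + 1 * 1) * u + (0 * 1 + 1 * 0 + 1 * 1) * v = u + v := by
      decide
    have e4 : ∀ u v : ZMod 2, ((0 : ZMod 2) * 0 + 1 * 1) * v + (0 * 1 + 1 * 0 + 1 * 1) * u
        + (0 * 1 + 1 * 0 + 1 * 1) * v = u := by decide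
    rw [f1_mul tau X, f2_mul tau X, f1_mul (tau * tau) X, f2_mul (tau * tau) X, f1_mul tau tau,
      f2_mul tau tau, f1_tau, f2_tau, e1, e2, e3, e4]
    exact casesL _ _ _ _ _ _ g1 g2
  rcases cases' with ⟨h1, h2, h3, h5, h6, h7⟩ | ⟨h1, h2, h3, h5, h6⟩ | ⟨h1, h2, h3, h5, h6⟩ |
    ⟨h1, h2, h3, h5, h6⟩ | ⟨h1, h2, h3, h5, h6⟩ | ⟨h1, h2, h3, h5, h6⟩
  · obtain ⟨P, rfl⟩ := dvd_of h1 h2
    obtain ⟨Q, rfl⟩ := dvd_of h3 h5
    obtain ⟨S, rfl⟩ := dvd_of h6 h7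
    refine ⟨P, Q, S, cancel (cancel ?_)⟩
    linear_combination h - 2 * α * s2s2
  · exact caseR α X Y Z h h1 h2 h3 h5 h6
  · exact caseR α X Z Y (by rw [← h]; ring) h1 h2 h3 h5 h6
  · exact caseR α Y Z X (by rw [← h]; ring) h1 h2 h3 h5 h6
  · exact caseF α X Y Z h h1 h2 h3 h5 h6
  · exact caseF α X Z Y (by rw [← h]; ring) h1 h2 h3 h5 h6

end Pool.Agent.U141.UF
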